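import Pool.Agent.AT2.Stmts

/-!
# Squad AT5: Alperin's weight conjecture for defect groups with a large central cyclic subgroup:
definitions

Text: `AWC_T5.md` (note 2700).  Everything on top of squads AT3, AT2.  THEOREM T5: let `ℓ` be any
prime, `e` a block with a (perhaps nonabelian) defect group `V`, `C` a central cyclic subgroup of `V`
and `B` an abelian subgroup of `V`.  If `|C| ≥ ℓ |V : C|³ |V : B|` (`|C| ≥ 4 |V : C|³ |V : B|` for
`ℓ = 2`), then the alternating sum of `e` is zero.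
-/

open scoped BigOperators

noncomputable section

namespace Pool.Agent.PP.T5

open Pool.Agent.Helper51_AWC Pool.Agent.Helper79_WRA Pool.Agent.PP Pool.Agent.PP.KF
open Pool.Agent.PP.K9 Pool.Agent.PP.K9.H97 Pool.Agent.PP.H75 Pool.Agent.PP.T3 Pool.Agent.PP.T2

attribute [local instance] Ideal.Quotient.field

section defs

variable {G : Type} [Group G]

/-- `1` for an odd prime, `2` for `ℓ = 2`: the powers of `1 + ℓ ^ ep ℓ` are all the units which are
`1` modulo `ℓ ^ ep ℓ` -/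
def ep (ℓ : ℕ) : ℕ := if ℓ = 2 then 2 else 1

/-- The class function `z` is invertible in the block `e` (`e` is a multiple of `z e`). -/
def Inv {F H : Type} [Field F] [Group H] (z e : H → F) : Prop :=
  ∃ c : H → F, IsCl c ∧ mulF (mulF c z) e = e

/-- `u` is the `ℓ`-part of `g` -/
structure Lp (ℓ : ℕ) (g u : G) : Prop where
  el : El ℓ u
  com : Commute u g
  reg : Reg ℓ (u⁻¹ * g)

/-- the subgroup of order `ℓ` of the cyclic group generated by `u` of order `ℓ ^ a` -/
def Om (ℓ a : ℕ) (u : G) : Subgroup G := Subgroup.zpowers (u ^ ℓ ^ (a - 1))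

/-- `V` has a central element of order `ℓ ^ a`, the order of `V` is at most `ℓ ^ (a + p)`, and `V`
has an abelian subgroup of index at most `ℓ ^ k`. -/
structure Cy (ℓ a p k : ℕ) (V : Subgroup G) : Prop where
  pos : 0 < a
  lt : p < a
  cen : ∃ u ∈ V, (∀ v ∈ V, v * u = u * v) ∧ orderOf u = ℓ ^ a
  card : Nat.card V ≤ ℓ ^ (a + p)
  ab : ∃ B ≤ V, (∀ x ∈ B, ∀ y ∈ B, x * y = y * x) ∧ B.relIndex V ≤ ℓ ^ k

variable (G) in
/-- `N` acts trivially on the elements of order prime to `ℓ`; on the `ℓ`-elements its powers act as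
all the numbers `1` modulo `ℓ ^ ep ℓ`; the power map by `N` has `ℓ`-power order. -/
structure G5 (ℓ N : ℕ) : Prop where
  cop : N.Coprime (Nat.card G)
  reg : ∀ g : G, Reg ℓ g → g ^ N = g
  gen : ∀ j j' : ℕ, ¬ ℓ ∣ j → j ≡ j' [MOD ℓ ^ ep ℓ] → ∃ k : ℕ, ∀ y : G, El ℓ y →
    (y ^ j) ^ N ^ k = y ^ j'
  per : ∃ r : ℕ, 0 < r ∧ ∀ g : G, g ^ N ^ ℓ ^ r = g

variable (M : Ideal (integralClosure ℤ ℂ)) [M.IsMaximal]

/-- `∑ κ(s) conj κ(s')` over the characters `κ` of the subgroup `C` in `b` -/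
def kr (C : Subgroup G) (b : G → FF M) (s s' : G) : ℂ :=
  ∑ᶠ κ ∈ IrrE M (fun t : C => b t), H75.ext0 C κ s * starRingEnd ℂ (H75.ext0 C κ s')

/-- the trace of the conjugation with `h` on the class functions in `b` on the regular elements of
`C` -/
def tw (ℓ : ℕ) (C : Subgroup G) (b : G → FF M) (h : G) : ℂ :=
  (Nat.card C : ℂ)⁻¹ * ∑ᶠ (s : G) (_ : s ∈ C ∧ Reg ℓ s), kr M C b (h * s * h⁻¹) s

/-- the square of the norm of the function `s ↦ χ(w s b)` on the regular elements of `C` -/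
def nm (ℓ : ℕ) (C : Subgroup G) (w : G) (b : G → FF M) (χ : G → ℂ) : ℝ :=
  (Nat.card C : ℝ)⁻¹ * ∑ᶠ (s : G) (_ : s ∈ C ∧ Reg ℓ s), Complex.normSq (gv M C (w * s) b χ)

/-- the inner product of `κ` and `κ'` on the regular elements -/
def rip {H : Type} [Group H] (ℓ : ℕ) (κ κ' : H → ℂ) : ℂ :=
  (Nat.card H : ℂ)⁻¹ * ∑ᶠ (s : H) (_ : Reg ℓ s), κ s * starRingEnd ℂ (κ' s)

/-- the characters in `e` which are fixed by the power map -/
def Rf (N : ℕ) (e : G → FF M) : Set (G → ℂ) := {χ | χ ∈ IrrE M e ∧ ∀ g, χ (g ^ N) = χ g}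

/-- `e` is a block with defect group `V`, `u` a central element of `V`, and `b` a block of `C(u)`
under `e` for which `V` is good. -/
structure Lb (ℓ : ℕ) {F : Type} [Field F] (e : G → F) (V : Subgroup G) (u : G) (b : G → F) :
    Prop where
  blk : IsBlk e
  tp : Tp ℓ e V
  mem : u ∈ V
  cen : ∀ v ∈ V, v * u = u * v
  bx : Bx (Cu u) b
  und : mulF (fun t : Cu u => e t) (fun t : Cu u => b t) = fun t : Cu u => b t
  gd : Gd b V

/-- The element `u y`: `u` is central in the defect group `V` of `e`, of order `ℓ ^ a`,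
`|V| < ℓ ^ (2 a)`, `y` is a regular element of `C(V)`, `V` is a Sylow subgroup of `C(u y)` and the
class sum of `u y` is invertible in `e`. -/
structure Uy (ℓ a : ℕ) {F : Type} [Field F] (e : G → F) (V : Subgroup G) (u y : G) : Prop where
  pos : 0 < a
  blk : IsBlk e
  tp : Tp ℓ e V
  mem : u ∈ V
  cen : ∀ v ∈ V, v * u = u * v
  ord : orderOf u = ℓ ^ a
  small : Nat.card V < ℓ ^ (2 * a)
  reg : Reg ℓ y
  yc : y ∈ Subgroup.centralizer (V : Set G)
  syl : ¬ ℓ ∣ V.relIndex (Cu (u * y))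
  inv : Inv (clsum F (⊤ : Subgroup G) (u * y)) e

/-- `f` is the block of `X = N(U)`, `U` of order `ℓ` in `⟨u⟩`, which is under `br_U(e)` and in which
the class sum of `u y` (in `X`) is invertible. -/
structure Uf (ℓ a : ℕ) {F : Type} [Field F] (e : G → F) (V : Subgroup G) (u y : G) (f : G → F) :
    Prop where
  blk : Bx (Subgroup.normalizer (Om ℓ a u : Set G)) f
  supp : ∀ x, x ∉ Subgroup.centralizer (Om ℓ a u : Set G) → f x = 0
  und : mulF (br (Om ℓ a u) e) f = f
  nle : Subgroup.normalizer (V : Set G) ≤ Subgroup.normalizer (Om ℓ a u : Set G)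
  tp : Tp ℓ (fun t : Subgroup.normalizer (Om ℓ a u : Set G) => f t)
    (V.subgroupOf (Subgroup.normalizer (Om ℓ a u : Set G)))
  inv : Inv (fun t : Subgroup.normalizer (Om ℓ a u : Set G) =>
      clsum F (Subgroup.normalizer (Om ℓ a u : Set G)) (u * y) t)
    (fun t : Subgroup.normalizer (Om ℓ a u : Set G) => f t)
  nil : ∀ f' : G → F, Bx (Subgroup.normalizer (Om ℓ a u : Set G)) f' →
    mulF (br (Om ℓ a u) e) f' = f' → f' ≠ f →
    ∃ n : ℕ, (mulF (clsum F (Subgroup.normalizer (Om ℓ a u : Set G)) (u * y)))^[n] f' = 0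

/-- `f` is an idempotent of `N(U)` under `br_U(e)`, supported on `C(U)`, and the idempotents over
different conjugates of `U` are orthogonal. -/
structure Uo (ℓ : ℕ) {F : Type} [Field F] (e : G → F) (U : Subgroup G) (f : G → F) : Prop where
  ix : Ix (Subgroup.normalizer (U : Set G)) f
  supp : ∀ x, x ∉ Subgroup.centralizer (U : Set G) → f x = 0
  und : mulF (br U e) f = f
  ort : ∀ Q : Subgroup G, IsPGroup ℓ Q → ∀ g h : G, Bt U Q g → Bt U Q h →
    conjS g U ≠ conjS h U → mulF (br Q (cj g f)) (br Q (cj h f)) = 0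

/-- The hypothesis of the induction. -/
def Ih5 (ℓ a p k n : ℕ) : Prop :=
  ∀ (A : Type) [Group A] [Finite A], Nat.card A < n → ∀ f : A → FF M, IsBlk f →
    ∀ V' : Subgroup A, Tp ℓ f V' → Cy ℓ a p k V' → YY ℓ ⊤ f = 0

end defs

end Pool.Agent.PP.T5
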