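import Pool.Agent.AT5.Defs

/-!
# Squad AT5, part 1: the bound `l(e) ≤ ℓ ^ (3 p + ep ℓ)`

`e` a block of `G` with defect group `V`, `u` a central element of `V` of order `ℓ ^ a`,
`|V| ≤ ℓ ^ (a + p)`.  Complete proofs in the docstrings; all rows are independent (a row may take the
rows which it uses as hypotheses).  `b^` is the lift `eh M b`; it vanishes at the singular elements
(`K9.H25.eh_sing`).  `conj κ(c) = κ(c⁻¹)`.
-/

open scoped BigOperators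

noncomputable section

namespace Pool.Agent.PP.T5

open Pool.Agent.Helper51_AWC Pool.Agent.Helper79_WRA Pool.Agent.PP Pool.Agent.PP.KF
open Pool.Agent.PP.K9 Pool.Agent.PP.K9.H97 Pool.Agent.PP.H75 Pool.Agent.PP.T3 Pool.Agent.PP.T2

attribute [local instance] Ideal.Quotient.field

/-! ## 1. The number of modular characters and the characters fixed by the power map -/

/-- PR5: existence of `N`.

Proof.  `|G| = ℓ ^ A m`, `m` prime to `ℓ`, `ε = ep ℓ`, `A' = A + ε`.  `N = 1 + ℓ ^ ε` mod `ℓ ^ A'`,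
`N = 1` mod `m` (Chinese remainder theorem), so `N` is prime to `|G|`.  The units mod `ℓ ^ A'` which are
`1` mod `ℓ ^ ε` form a group of order `ℓ ^ (A' - ε)`, and `1 + ℓ ^ ε` has this order
(`(1 + ℓ ^ ε) ^ ℓ ^ i = 1 + ℓ ^ (ε + i) c`, `c` prime to `ℓ`; for `ℓ = 2` this needs `ε = 2`), so its
powers are all these units.  `gen`: an `ℓ`-element of `G` has `y ^ ℓ ^ A' = 1`; `c = j'/j` mod
`ℓ ^ A'` is `1` mod `ℓ ^ ε`, so `c = N ^ k`.  `per`: `r = A'`. -/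
def Pr5Stmt : Prop := ∀ (ℓ : ℕ) [Fact ℓ.Prime] (G : Type) [Group G] [Finite G],
  ∃ N : ℕ, G5 G ℓ N

/-- KER: the function `s ↦ χ(w s b)` on the regular elements.

Proof.  `f(c) = χ(w c)` is a class function on `C = C(u)` (`w` commutes with `C`), so
`f = ∑_κ (f, κ) κ` over `κ ∈ Irr(C)`, and `gv M C (w s) b χ = ∑_t b^(t) f(s t)
= ∑_κ (f, κ) ∑_t b^(t) κ(s t)
= ∑_{κ ∈ b} (f, κ) κ(s)` (`IdmStmt`; `κ(s t) = κ(t s)`), `(f, κ) = |C|⁻¹ ∑_c f(c) conj κ(c)`.  Exchange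
the sums; for singular `c` the inner sum `∑_{κ ∈ b} κ(s) conj κ(c)` vanishes (`WboStmt` for the
regular element `s⁻¹` and `c⁻¹`). -/
def KerStmt : Prop := ∀ (ℓ : ℕ) [Fact ℓ.Prime] (M : Ideal (integralClosure ℤ ℂ)) [M.IsMaximal],
  (ℓ : integralClosure ℤ ℂ) ∈ M → ∀ (G : Type) [Group G] [Finite G] (u w : G),
  (∀ c ∈ Cu u, w * c = c * w) → ∀ b : G → FF M, Ix (Cu u) b → ∀ s ∈ Cu u, Reg ℓ s →
  ∀ χ ∈ Irr G, gv M (Cu u) (w * s) b χ =
    (Nat.card (Cu u) : ℂ)⁻¹ * ∑ᶠ (c : G) (_ : c ∈ Cu u ∧ Reg ℓ c), kr M (Cu u) b s c * χ (w * c)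

/-- CO5: orthogonality for the functions `s ↦ χ(u s b)`.

Proof.  KER for both factors (`w = u`), and the second orthogonality relation
`∑_χ χ(x) conj χ(x') = #{z ∈ G | z x' z⁻¹ = x}`.  The sum is `|C|⁻¹ |C'|⁻¹` times the sum over the
regular `c ∈ C = C(u)`, `c' ∈ C' = C(u')` and over the `z` with `z u' c' z⁻¹ = u c` of
`k(s, c) conj k'(s', c')`, `k`, `k'` the kernels of `b`, `b'`.  Comparing the `ℓ`-parts,
`z u' z⁻¹ = u`, `z c' z⁻¹ = c`.  For such a `z` (`C = z C' z⁻¹`) the sum over `c` is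
`∑_c k(s, c) conj k'(s', z⁻¹ c z)`, `k'(s', z⁻¹ c z) = ∑ κ(z s' z⁻¹) conj κ(c)` over the characters
`κ` of `C` in `cj z b'`.  No character is in `b` and in `cj z b'` (`b cj z b' = 0`), so the sum is
zero by the first orthogonality relation in `C` (the sum may be taken over all `c`, the
kernels vanish at singular `c`).  Compare `Helper62_AT3/CO2.lean` (`eh_orth`, `eh_equiv`, `cjE`). -/
def Co5Stmt : Prop := ∀ (ℓ : ℕ) [Fact ℓ.Prime] (M : Ideal (integralClosure ℤ ℂ)) [M.IsMaximal],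
  (ℓ : integralClosure ℤ ℂ) ∈ M → ∀ (G : Type) [Group G] [Finite G] (u u' : G), El ℓ u → El ℓ u' →
  ∀ b b' : G → FF M, Ix (Cu u) b → Ix (Cu u') b' →
  (∀ x : G, x * u' * x⁻¹ = u → mulF b (cj x b') = 0) → ∀ s ∈ Cu u, Reg ℓ s → ∀ s' ∈ Cu u',
  Reg ℓ s' →
    ∑ᶠ χ ∈ Irr G, gv M (Cu u) (u * s) b χ * starRingEnd ℂ (gv M (Cu u') (u' * s') b' χ) = 0

/-- CO3: the inner product of the vectors `χ(u s b)`, `χ(u s' b)`.

Proof.  As CO5 with `u' = u`, `b' = b`: the `z` are the elements of `C = C(u)`.  For each `z` the sum over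
`c` is `∑_c k(s, c) conj k(s', z⁻¹ c z) = ∑_c k(s, c) conj k(s', c) = |C| k(s, s')` (first
orthogonality in `C`; `k(s, ·) = ∑_κ κ(s) conj κ`).  Total: `|C|⁻² |C| |C| k(s, s')`. -/
def Co3Stmt : Prop := ∀ (ℓ : ℕ) [Fact ℓ.Prime] (M : Ideal (integralClosure ℤ ℂ)) [M.IsMaximal],
  (ℓ : integralClosure ℤ ℂ) ∈ M → ∀ (G : Type) [Group G] [Finite G] (u : G), El ℓ u →
  ∀ b : G → FF M, Ix (Cu u) b → ∀ s ∈ Cu u, Reg ℓ s → ∀ s' ∈ Cu u, Reg ℓ s' →
    ∑ᶠ χ ∈ Irr G, gv M (Cu u) (u * s) b χ * starRingEnd ℂ (gv M (Cu u) (u * s') b χ) =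
      kr M (Cu u) b s s'

/-- TWY: the contribution of an `ℓ`-element `y` which is conjugate to its power.

Proof.  `C = C(y)`; `g` normalises `C` (`y ^ n` generates `⟨y⟩`).  `b = e|C`, extended by zero.  By
SMG (for `b` and for `1 - b`, whose lifts have the sum `δ_1`) `χ(y s) = gv M C (y s) b χ` for
`χ ∈ e`, and `gv M C (y s) b χ = 0` for `χ ∉ e`; so CO3 gives
`∑_{χ ∈ e} χ(y s') conj χ(y s) = k(s', s)` for regular `s, s' ∈ C`.  For regular `s` in `C`: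
`χ(y ^ n s) = χ(g y g⁻¹ s) = χ(y g⁻¹ s g)`.  So the sum is `∑_s k(g⁻¹ s g, s) = |C| t(g⁻¹)`. -/
def TwyStmt : Prop := ∀ (ℓ : ℕ) [Fact ℓ.Prime] (M : Ideal (integralClosure ℤ ℂ)) [M.IsMaximal],
  (ℓ : integralClosure ℤ ℂ) ∈ M → ∀ (G : Type) [Group G] [Finite G] (e : G → FF M), IsIdem e →
  ∀ y : G, y ≠ 1 → El ℓ y → ∀ (n : ℕ) (g : G), g * y * g⁻¹ = y ^ n →
  ∑ᶠ (s : G) (_ : s ∈ Cu y ∧ Reg ℓ s), ∑ᶠ χ ∈ IrrE M e,
    χ (y ^ n * s) * starRingEnd ℂ (χ (y * s)) = (Nat.card (Cu y) : ℂ) * tw M ℓ (Cu y) e g⁻¹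

/-- TWT: the sum of the twisted traces over `A/C`.

Proof.  The regular elements of `A` are in `C` (`A/C` is an `ℓ`-group).  LRK for `A`:
`|A| l_A(E) = ∑_s ∑_{χ ∈ Irr A in E} χ(s) conj χ(s)`, `s` over the regular elements of `C`.
`TrcStmt` for `a = s E^`, `b = δ_{s⁻¹}` (with IDM: `χ(s E^) = χ(s)` or `0`): the inner sum is
`∑_{x ∈ A} E^(s⁻¹ x s x⁻¹)`.  `E^` is supported on `C` and it is also the lift of the restriction of
`E` to `C` (the lift of a central idempotent is unique: two commuting idempotents over `RM M` with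
the same residue are equal, since `(E₁ - E₂)³ = E₁ - E₂` has residue `0`, or compare the central
characters; the lift for `C` is invariant under `A`).  In the same way
`k(h s h⁻¹, s) = ∑_{κ ∈ Irr C in E} κ(h s h⁻¹) κ(s⁻¹) = ∑_{x ∈ C} E^(s⁻¹ (h⁻¹ x) s (h⁻¹ x)⁻¹)`
for `h ∈ A` (`TrcStmt` in `C`, and `E^` is invariant under `h`).  The sets `h⁻¹ C` are the cosets of
`C` in `A`, so `|A| l_A(E) = ∑_s ∑_{h ∈ A/C} k(h s h⁻¹, s) = |C| ∑_{h ∈ A/C} t(h)`. -/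
def TwtStmt : Prop := ∀ (ℓ : ℕ) [Fact ℓ.Prime] (M : Ideal (integralClosure ℤ ℂ)) [M.IsMaximal],
  (ℓ : integralClosure ℤ ℂ) ∈ M → ∀ (G : Type) [Group G] [Finite G] (C A : Subgroup G), C ≤ A →
  A ≤ Subgroup.normalizer (C : Set G) → (∃ n, C.relIndex A = ℓ ^ n) → ∀ E : G → FF M, Ix A E →
  (∀ x, x ∉ C → E x = 0) → ((C.relIndex A : ℕ) : ℂ) * (ln (fun t : A => E t) : ℂ) =
    ∑ᶠ h : A ⧸ C.subgroupOf A, tw M ℓ C E ((h.out : A) : G)

/-- NCL: a normal subgroup of index `ℓ`.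

Proof.  `S₁` = the irreducible modular characters `φ` of `C` with `E φ = φ`, a finite linearly
independent set (`IbfStmt`), permuted by `A` (conjugation), `C` acts trivially; so the orbits have
`1` or `ℓ` elements and there are at least `|S₁|/ℓ` orbits.  For an orbit `O` let
`f_O(x) = ∑_{φ ∈ O} φ(x_{ℓ'})`, `x ∈ A`, `x_{ℓ'}` the `ℓ'`-part of `x` (`PrtStmt`), which is in `C`.
`f_O ∈ TT(A)`: it is a class function of `A` which depends only on the `ℓ'`-part (the `φ` are in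
`TT(C)`, `BrtStmt`).  On `C`, `f_O = ∑ φ` and `E f_O = f_O` there; `actF E f_O` and `f_O` are both in
`TT(A)` (central idempotents preserve `TT(A)` by `BrtStmt` and `EigStmt`) and agree on `C` (`E` is
supported on `C`), so they are equal (the `ℓ'`-parts are in `C`).  The `f_O` are linearly
independent (restrict to `C`).  So the number of orbits is at most the rank of `E` on `TT(A)`,
which is `l_A(E)` (`RnkStmt`). -/
def NclStmt : Prop := ∀ (ℓ : ℕ) [Fact ℓ.Prime] (F : Type) [Field F], GoodF ℓ F → ∀ (G : Type)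
  [Group G] [Finite G] (C A : Subgroup G), C ≤ A → A ≤ Subgroup.normalizer (C : Set G) →
  C.relIndex A = ℓ → ∀ E : G → F, Ix A E → (∀ x, x ∉ C → E x = 0) →
  ln (fun t : C => E t) ≤ ℓ * ln (fun t : A => E t)

/-- CYS: the sum of the twisted traces of the powers of `g` is not negative.

Proof.  `t(h)` depends only on the coset `h C` (`k(c s c⁻¹, s') = k(s, s')` for `c ∈ C`), and
`t(1) = l_C(E)` (LRK).  Let `ℓ ^ d` be the order of `g C` in `N(C)/C`, `d ≤ r`.  If `d = 0` all the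
terms are `l_C(E) ≥ 0`.  Let `d > 0`, `A = C⟨g⟩`, `A₁ = C⟨g ^ ℓ⟩`, of index `ℓ` in `A`.  The sum is
`ℓ ^ (r-d)` times the sum over the `j < ℓ ^ d` prime to `ℓ`, which is the sum over all `j < ℓ ^ d` minus the
sum over the multiples of `ℓ`, i.e. (TWT for `A` and `A₁`)
`ℓ ^ d l_A(E) - ℓ ^ (d-1) l_{A₁}(E)`, which is not negative by NCL (for `A₁ ≤ A`). -/
def CysStmt : Prop := ∀ (ℓ : ℕ) [Fact ℓ.Prime] (M : Ideal (integralClosure ℤ ℂ)) [M.IsMaximal],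
  (ℓ : integralClosure ℤ ℂ) ∈ M → ∀ (G : Type) [Group G] [Finite G] (C : Subgroup G)
  (E : G → FF M), Ix C E → ∀ g ∈ Subgroup.normalizer (C : Set G), cj g E = E → ∀ r : ℕ, 0 < r →
  g ^ ℓ ^ r ∈ C → ∃ x : ℝ, 0 ≤ x ∧
    ∑ j ∈ (Finset.range (ℓ ^ r)).filter (fun j => ¬ ℓ ∣ j), tw M ℓ C E (g ^ j)⁻¹ = (x : ℂ)

/-- FX5: the number of modular characters is at most the number of characters fixed by the power
map.

Proof.  `σ χ = χ ∘ (· ^ N)` permutes the characters in `e` (`T3.H23.rtc'`), `σ ^ ℓ ^ r = 1`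
(`G5.per`).  For `j` prime to `ℓ` the permutations `σ` and `σ ^ j` have the same fixed points, so
`φ(ℓ ^ r) |R| = ∑_{j < ℓ ^ r, ℓ ∤ j} ∑_{χ ∈ e} (σ ^ j χ, χ) = |G|⁻¹ ∑_y ∑_j τ_j(y)`, the sum over the
`ℓ`-elements `y` (write `g = y s`), `τ_j(y) = ∑_s ∑_{χ ∈ e} χ(y ^ N ^ j s) conj χ(y s)`, `s` over the
regular elements of `C(y)`.  `y = 1`: `τ_j(1) = |G| ln e` (LRK).  `y ≠ 1`, `y ^ N` not conjugate to
`y`: no `y ^ N ^ j`, `j` prime to `ℓ`, is conjugate to `y` (if `g y g⁻¹ = y ^ N ^ j` and `j j' = 1` mod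
`ℓ ^ r` then `g ^ j' y g ^ (-j') = y ^ N ^ (j j') = y ^ N`), so `τ_j(y) = 0` by `T2.FxyStmt` for
`N ^ j` (the hypothesis is empty).  `y ≠ 1`, `g y g⁻¹ = y ^ N`: `g ^ j y g ^ (-j) = y ^ N ^ j`, and
`τ_j(y) = |C(y)| t((g ^ j)⁻¹)` by TWY; the sum over `j` is not negative by CYS (`g ^ ℓ ^ r`
commutes with `y`).  So `φ(ℓ ^ r) |R| ≥ φ(ℓ ^ r) ln e`. -/
def Fx5Stmt : Prop := ∀ (ℓ : ℕ) [Fact ℓ.Prime] (M : Ideal (integralClosure ℤ ℂ)) [M.IsMaximal],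
  (ℓ : integralClosure ℤ ℂ) ∈ M → ∀ (G : Type) [Group G] [Finite G] (N : ℕ), G5 G ℓ N →
  ∀ e : G → FF M, IsIdem e → ln e ≤ (Rf M N e).ncard

/-! ## 2. Local blocks -/

/-- ORS: a class fixed by an `ℓ`-group of automorphisms.

Proof.  `λ` = the central character of `β` (an irreducible representation in `β`, `EigStmt`):
`1 = λ(β) = ∑_K β(K) λ(K)`, over the classes `K` of `C` (`λ(K)` the value at the class sum).  `S`
acts on the classes; `β(K)` and `λ(K)` are invariant (`cj s β = β`).  Let `P` be a Sylow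
`ℓ`-subgroup of `S`; `S = C P`.  By `OrbStmt` (for `P`) the sum over the classes fixed by `P`, so
by `S`, is `1`, so there is a class `K` of some `c`, fixed by `S`, with `β c ≠ 0`, `λ(K) ≠ 0`;
the class sum is not nilpotent in `β`, so it is invertible (`H50.blk_dich`).  For `s ∈ S`:
`s c s⁻¹ = x⁻¹ c x` with `x ∈ C`, so `x s` commutes with `c`. -/
def OrsStmt : Prop := ∀ (ℓ : ℕ) [Fact ℓ.Prime] (F : Type) [Field F], GoodF ℓ F → ∀ (G : Type)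
  [Group G] [Finite G] (C S : Subgroup G), C ≤ S → S ≤ Subgroup.normalizer (C : Set G) →
  (∃ n, C.relIndex S = ℓ ^ n) → ∀ β : G → F, Bx C β → (∀ s ∈ S, cj s β = β) →
  ∃ c ∈ C, β c ≠ 0 ∧ Inv (fun t : C => clsum F C c t) (fun t : C => β t) ∧
    ∀ s ∈ S, ∃ x ∈ C, x * s * c = c * (x * s)

/-- LBX: the local block.

Proof.  `e|C(u)` is the sum of the blocks `b_i` of `C(u)` under `e`; `e` does not vanish on
`C(V) ≤ C(u)`, so some `b_i` does not.  Second part: a subgroup of `C(u)` good for `b` is good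
for `e` (`e|C(u) b = b`; `K9.H97.gd_of_mul`, `gd_map`), so its order is at most `|V|`; `V ≤ C(u)`. -/
def LbxStmt : Prop := ∀ (ℓ : ℕ) [Fact ℓ.Prime] (M : Ideal (integralClosure ℤ ℂ)) [M.IsMaximal],
  (ℓ : integralClosure ℤ ℂ) ∈ M → ∀ (G : Type) [Group G] [Finite G] (e : G → FF M)
  (V : Subgroup G) (u : G), IsBlk e → Tp ℓ e V → u ∈ V → (∀ v ∈ V, v * u = u * v) →
  (∃ b, Lb ℓ e V u b) ∧ ∀ b, Lb ℓ e V u b →
    Tp ℓ (fun t : Cu u => b t) (V.subgroupOf (Cu u)) ∧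
    Nat.card (V.subgroupOf (Cu u)) = Nat.card V

/-- IX5: the inertial index is prime to `ℓ`, for all defect groups.

Proof.  `C = C(V)`, `T = Tg V γ ≥ V C` (`V` fixes `γ`, which is supported on `C(V)`).  Suppose `ℓ`
divides `|T : V C|`; let `V C ≤ S ≤ T`, `|S : V C| = ℓ` (Cauchy).  `S/C` is an `ℓ`-group.  ORS for
`C`, `S`, `γ`: `c ∈ C` with `γ c ≠ 0`, and `C_S(c)` maps onto `S/C`.  Let `P` be a Sylow
`ℓ`-subgroup of `C_S(c)` which contains `V` (`V` commutes with `c`).  `P` maps onto `S/C` (an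
`ℓ`-group), and the image of `V` in `S/C` is smaller, so `P > V`.  `P` is good for `e`:
`c ∈ C(P)`, `γ c ≠ 0`, `γ` is `P`-invariant, `br_V(e) γ = γ`, so (`H75.br_mulF`)
`br_P(br_V e) br_P(γ) = br_P(γ) ≠ 0`.  This contradicts the maximality of `V`. -/
def Ix5Stmt : Prop := ∀ (ℓ : ℕ) [Fact ℓ.Prime] (M : Ideal (integralClosure ℤ ℂ)) [M.IsMaximal],
  (ℓ : integralClosure ℤ ℂ) ∈ M → ∀ (G : Type) [Group G] [Finite G] (e : G → FF M), IsBlk e →
  ∀ V : Subgroup G, Tp ℓ e V → ∀ γ : G → FF M, Bx (Subgroup.centralizer (V : Set G)) γ →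
  mulF (br V e) γ = γ →
    ¬ ℓ ∣ (V ⊔ Subgroup.centralizer (V : Set G)).relIndex (Tg V γ)

/-- INC: an element which normalises `⟨u⟩`, stabilises `b` and has an `ℓ`-power in `C(u)` commutes
with `u`.

Proof.  `C = C(u)`, `A₁ = C ⟨x⟩` (`x` normalises `C`), `A₁/C` an `ℓ`-group, `cj a b = b` for
`a ∈ A₁`.  ORS for `C`, `A₁`, `b`: `c ∈ C` with `b c ≠ 0`, the class sum of `c` in `C` is invertible in
`b`, `C_{A₁}(c)` maps onto `A₁/C`.  `V` is good for `b`, so a conjugate of `V` under `C` commutes with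
`c` (apply `br_V`: `br_V(clsum c) br_V(b)` is invertible in `br_V(b) ≠ 0`, so `clsum c` does not
vanish on `C(V)`).  Replace `c` by a conjugate: `V ≤ C(c)`, `b c ≠ 0`.  Let `P ≥ V` be a Sylow
`ℓ`-subgroup of `C_{A₁}(c)`.  `P` is good for `e`: `b c ≠ 0`, `c ∈ C(P)`, `b` is `P`-invariant,
`e b = b`, so `br_P(e) br_P(b) = br_P(b) ≠ 0`.  So `|P| ≤ |V|`, `P = V ≤ C`.  But `P` maps onto the
`ℓ`-group `A₁/C`, so `A₁ = C`, `x ∈ C`. -/
def IncStmt : Prop := ∀ (ℓ : ℕ) [Fact ℓ.Prime] (M : Ideal (integralClosure ℤ ℂ)) [M.IsMaximal],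
  (ℓ : integralClosure ℤ ℂ) ∈ M → ∀ (G : Type) [Group G] [Finite G] (e : G → FF M)
  (V : Subgroup G) (u : G) (b : G → FF M), Lb ℓ e V u b → ∀ x : G,
  x ∈ Subgroup.normalizer (Subgroup.zpowers u : Set G) → cj x b = b → ∀ k : ℕ,
  x ^ ℓ ^ k ∈ Cu u → x ∈ Cu u

/-- NZ5: `χ(u b) ≠ 0` for all characters in `e`.

Proof (compare `T3.RsvStmt` and `Helper97_K9/NZB.lean`, `NZR.lean`).  By `K9.OmgStmt` it is enough that
`res M z χ ≠ 0` for `z = trc (Cu u) u b`, the sum of the conjugates `q (u b) q⁻¹` over `q ∈ G/C(u)`.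
Let `γ` be a block of `C(V)` with `br_V(b) γ = γ` (`V` is good for `b`); then `br_V(e) γ = γ`.
`res M z χ` is the value `λ` of the central character of `γ` at `br_V(z)` (`a ↦ λ(br_V a)` and
`a ↦ res M a χ` are characters of the centre of `F G` with value `1` at `e`: `H50.char_uniq`).
The elements of `q (u b) q⁻¹` have the `ℓ`-part `u' = q u q⁻¹` (`b` is supported on regular elements), so
`br_V` of this term is zero unless `V ≤ C(u') = q C(u) q⁻¹`, and then it is `u' br_V(cj q b)`.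
Suppose `br_V(cj q b) γ ≠ 0`.  Then `q⁻¹ V q ≤ C(u)` is good for `b`, of order `|V|`, so it is
conjugate to `V` in `C(u)` (LBX, FMG for `C(u)`): after changing `q` in its coset `q C(u)`,
`q ∈ N(V)`.  `cj q⁻¹ γ` is a block of `C(V)` not orthogonal to `br_V(b)`, which is a block of
`N(V) ∩ C(u)` (FMG), so `cj q⁻¹ γ` and `γ` are conjugate under `N(V) ∩ C(u)` (`K9.OrbStmt`), so we
may assume `q ∈ T = Tg V γ`.  Conversely for `q ∈ T` the term is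
`q u q⁻¹ br_V(cj q b) γ = (q u q⁻¹) γ`, and `q u q⁻¹ ∈ Z(V)` is central in `C(V)` and unipotent:
`λ = 1`.  So `res M z χ = |T : T ∩ C(u)|` in `F`, a divisor of `|T : V C(V)|`
(`V C(V) ≤ T ∩ C(u)`), prime to `ℓ` by IX5. -/
def Nz5Stmt : Prop := ∀ (ℓ : ℕ) [Fact ℓ.Prime] (M : Ideal (integralClosure ℤ ℂ)) [M.IsMaximal],
  (ℓ : integralClosure ℤ ℂ) ∈ M → ∀ (G : Type) [Group G] [Finite G] (e : G → FF M)
  (V : Subgroup G) (u : G) (b : G → FF M), Lb ℓ e V u b → ∀ χ ∈ IrrE M e,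
    gv M (Cu u) u b χ ≠ 0

/-- VJ5: the values of the fixed characters.

Proof.  KER with `w = u ^ j` and `w = u ^ j'`: for `c` regular in `C(u)` and the `k` of `G5.gen`,
`χ(u ^ j c) = χ((u ^ j c) ^ N ^ k) = χ((u ^ j) ^ N ^ k c) = χ(u ^ j' c)` (iterate
`χ(g ^ N) = χ(g)`; `c ^ N = c`). -/
def Vj5Stmt : Prop := ∀ (ℓ : ℕ) [Fact ℓ.Prime] (M : Ideal (integralClosure ℤ ℂ)) [M.IsMaximal],
  (ℓ : integralClosure ℤ ℂ) ∈ M → ∀ (G : Type) [Group G] [Finite G] (N : ℕ), G5 G ℓ N →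
  ∀ u : G, El ℓ u → ∀ b : G → FF M, Ix (Cu u) b → ∀ χ ∈ Irr G, (∀ g, χ (g ^ N) = χ g) →
  ∀ s ∈ Cu u, Reg ℓ s → ∀ j j' : ℕ, ¬ ℓ ∣ j → j ≡ j' [MOD ℓ ^ ep ℓ] →
    gv M (Cu u) (u ^ j * s) b χ = gv M (Cu u) (u ^ j' * s) b χ

/-- OJ5: orthogonality for the powers of `u`.

Proof.  `C(u ^ j) = C(u ^ j') = C(u)`.  By CO5 it is enough that `b (cj x b) = 0` for all `x` with
`x u ^ j' x⁻¹ = u ^ j`.  Otherwise `cj x b = b` (`Bx.dich`; `x` normalises `⟨u⟩` and `C(u)`).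
`x v x⁻¹ = v ^ c` for `v ∈ ⟨u⟩`, `c j' = j` mod `ℓ ^ a`, so `c = 1` mod `ℓ ^ ep ℓ`
(`ep ℓ ≤ a`), so `c ^ ℓ ^ a = 1` mod `ℓ ^ a` and `x ^ ℓ ^ a ∈ C(u)`.  INC: `x ∈ C(u)`,
`u ^ j' = u ^ j`, a contradiction. -/
def Oj5Stmt : Prop := ∀ (ℓ : ℕ) [Fact ℓ.Prime] (M : Ideal (integralClosure ℤ ℂ)) [M.IsMaximal],
  (ℓ : integralClosure ℤ ℂ) ∈ M → ∀ (G : Type) [Group G] [Finite G] (e : G → FF M)
  (V : Subgroup G) (u : G) (b : G → FF M), Lb ℓ e V u b → ∀ a : ℕ, ep ℓ ≤ a →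
  orderOf u = ℓ ^ a → ∀ j j' : ℕ, ¬ ℓ ∣ j → j ≡ j' [MOD ℓ ^ ep ℓ] → u ^ j ≠ u ^ j' →
  ∀ s ∈ Cu u, Reg ℓ s →
    ∑ᶠ χ ∈ Irr G, gv M (Cu u) (u ^ j * s) b χ *
      starRingEnd ℂ (gv M (Cu u) (u ^ j' * s) b χ) = 0

/-- BS5: Bessel's inequality.

Proof.  Let `s ∈ C(u)` be regular, `v i = (gv M (Cu u) (u ^ i s) b χ)_χ` for the `ℓ ^ (a - ep ℓ)`
numbers `i < ℓ ^ a`, `i = j` mod `ℓ ^ ep ℓ`.  They are orthogonal (OJ5) of norm squared
`c = k(s, s) = ∑_{κ ∈ b} |κ(s)|²` (CO3 for `u ^ i`, `C(u ^ i) = C(u)`).  BES with the vector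
`conj (v j χ)` for `χ ∈ R` and `0` otherwise: `v i χ = v j χ` for `χ ∈ R` (VJ5), so with
`x = ∑_{χ ∈ R} |v j χ|²`: `ℓ ^ (a - ep ℓ) x² ≤ c x`, `ℓ ^ (a - ep ℓ) x ≤ c`.  Now add over `s` and
divide by `|C(u)|`: the right side becomes `ln b` (LRK for `C(u)`). -/
def Bs5Stmt : Prop := ∀ (ℓ : ℕ) [Fact ℓ.Prime] (M : Ideal (integralClosure ℤ ℂ)) [M.IsMaximal],
  (ℓ : integralClosure ℤ ℂ) ∈ M → ∀ (G : Type) [Group G] [Finite G] (N : ℕ), G5 G ℓ N →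
  ∀ (e : G → FF M) (V : Subgroup G) (u : G) (b : G → FF M), Lb ℓ e V u b → ∀ a : ℕ, ep ℓ ≤ a →
  orderOf u = ℓ ^ a → ∀ j : ℕ, ¬ ℓ ∣ j →
    (ℓ : ℝ) ^ (a - ep ℓ) * ∑ᶠ χ ∈ Rf M N e, nm M ℓ (Cu u) (u ^ j) b χ ≤
      ln (fun t : Cu u => b t)

/-! ## 3. Integrality on the regular elements -/

/-- ZIM: products of virtual characters.

Proof.  The product of two characters is the character of the tensor product
(`Representation.tprod`, or Kronecker products of matrices), and the character of a finite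
dimensional representation is in `ZI` (its inner products with the irreducible characters are
natural numbers, `Helper30_KF/Mul.lean` `mult_int`, or complete reducibility).  The complex conjugate of
an irreducible character is irreducible. -/
def ZimStmt : Prop := ∀ (H : Type) [Group H] [Finite H], ∀ f ∈ ZI H, ∀ h ∈ ZI H,
  (fun x => f x * h x) ∈ ZI H ∧ (fun x => starRingEnd ℂ (f x)) ∈ ZI H

open Classical in
/-- SEI: two virtual characters.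

Proof.  For a prime `r`, `P_r` a Sylow `r`-subgroup, `f_r` the character induced from the
trivial character of `P_r`: it vanishes at the elements which are not `r`-elements, and
`f_r(1) = |H : P_r|`; `f_r ∈ ZI H` (Frobenius reciprocity: all its inner products with irreducible
characters are multiplicities).  For a natural number `N`, `g ↦ f(g ^ N)` is in `ZI H` for
`f ∈ ZI H` (`K9.AdaStmt`: integral inner products).  (1) `N` with `g ^ N` = the `ℓ`-part of `g`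
(Chinese remainder theorem), `r ≠ ℓ`: `f_r(g ^ N) ≠ 0` only if the `ℓ`-part of `g` is an `r`-element,
i.e. `1`: so `|H : P_r| 1_reg ∈ ZI H`.  In the same way `|H| 1_reg ∈ ZI H` (the regular
character).  The integers `n` with `n 1_reg ∈ ZI H` form a subgroup of `ℤ` which contains `|H|` and
`|H : P_r|` for all primes `r ≠ ℓ`; so it contains the greatest common divisor, which divides
`|P_ℓ|`.  (2) `N` with `g ^ N` = the `ℓ'`-part of `g` (`PrtStmt`), `r = ℓ`: `f_ℓ(g ^ N) ≠ 0` only if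
the `ℓ'`-part of `g` is an `ℓ`-element, i.e. `1`: so `|H : P_ℓ| 1_{ℓ-elements} ∈ ZI H`. -/
def SeiStmt : Prop := ∀ (ℓ : ℕ) [Fact ℓ.Prime] (H : Type) [Group H] [Finite H]
  (P : Sylow ℓ H), (fun h : H => if Reg ℓ h then (Nat.card P : ℂ) else 0) ∈ ZI H ∧
    (fun h : H => if El ℓ h then ((P : Subgroup H).index : ℂ) else 0) ∈ ZI H

/-- DEG: the degrees.

Proof.  `y` from `FmgStmt`: `c K_y b = b`, so `ω_κ(K_y) = |H : C(y)| κ(y)/κ(1)` is not in the maximal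
ideal of `RM M` (`res M` is multiplicative on class functions, `res M b κ = 1`), i.e. its inverse is in
`RM M`: `κ(1) / (|H : C(y)| κ(y)) ∈ RM M`, so `κ(1)/|H : C(y)| ∈ RM M` (`κ(y)` is an algebraic
integer), and `|V|/|H| = 1/(|H : C(y)| |C(y) : V|)`, `|C(y) : V|` prime to `ℓ`. -/
def DegStmt : Prop := ∀ (ℓ : ℕ) [Fact ℓ.Prime] (M : Ideal (integralClosure ℤ ℂ)) [M.IsMaximal],
  (ℓ : integralClosure ℤ ℂ) ∈ M → ∀ (H : Type) [Group H] [Finite H] (b : H → FF M), IsBlk b →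
  ∀ V : Subgroup H, Tp ℓ b V → ∀ κ ∈ IrrE M b, (Nat.card V * κ 1 / Nat.card H : ℂ) ∈ RM M

/-- INQ: the inner products on the regular elements.

Proof.  Let `P` be a Sylow `ℓ`-subgroup of `H`.  `|P| rip κ κ'` is the inner product of the virtual
characters `|P| 1_reg κ` and `κ'` (SEI (1), ZIM), an integer `z`.  `|V| rip κ κ' ∈ RM M`: it is
`(|V| κ(1)/|H|) ∑_K ω_κ(K) conj κ'(K)`, over the regular classes `K`, `ω_κ(K) = |K| κ(K)/κ(1)` an
algebraic integer; DEG.  So the rational number `|V| z/|P|` is in `RM M`.  Its denominator is a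
power of `ℓ`; a rational number with denominator divisible by `ℓ` (in lowest terms) is not in
`RM M` (otherwise `1/ℓ` would be in `RM M`).  So it is an integer. -/
def InqStmt : Prop := ∀ (ℓ : ℕ) [Fact ℓ.Prime] (M : Ideal (integralClosure ℤ ℂ)) [M.IsMaximal],
  (ℓ : integralClosure ℤ ℂ) ∈ M → ∀ (H : Type) [Group H] [Finite H] (b : H → FF M), IsBlk b →
  ∀ V : Subgroup H, Tp ℓ b V → ∀ κ ∈ IrrE M b, ∀ κ' ∈ IrrE M b,
    ∃ n : ℤ, (Nat.card V : ℂ) * rip ℓ κ κ' = n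

/-- NZM: a character of the block which is not orthogonal, on the regular elements, to any
character of the block.

Proof.  Let `π` be the indicator function of the `ℓ`-elements, `a_ψ = (π, ψ)` for
`ψ ∈ Irr(H)`; by SEI (2) `|H : P| a_ψ ∈ ℤ`, so `a_ψ ∈ RM M`.  For `x` regular:
`∑_{ψ ∈ b} a_ψ ψ(x) = |H|⁻¹ ∑_{c an ℓ-element} ∑_{ψ ∈ b} ψ(x) conj ψ(c) = |H|⁻¹ ∑_{ψ ∈ b} ψ(x) ψ(1)
= b^(x⁻¹)` (`WboStmt`: only `c = 1` contributes).  Let `κ ∈ b`.  `κ(1) = ∑_x b^(x) κ(x)` (IDM), `x`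
over the regular elements (`b^` vanishes at the others),
`= ∑_{ψ ∈ b} a_ψ ∑_x ψ(x⁻¹) κ(x) = ∑_ψ a_ψ |H| rip κ ψ`.  So `1 = ∑_ψ a_ψ r(κ, ψ)`,
`r(κ, ψ) = |H| rip κ ψ / κ(1) = ∑_K ω_κ(K) conj ψ(K)` over the regular classes; `r(κ, ψ)` is an
algebraic integer and its residue is `res M f_ψ κ`, `f_ψ` the class function over `FF M` with value
the residue of `conj ψ(x)` for `x` regular and `0` otherwise.  `res M f_ψ κ` is the same for all
`κ ∈ b` (`H50.char_uniq`, `b` is a block).  Fix `κ₁ ∈ b`; some `ψ ∈ b` has `res M f_ψ κ₁ ≠ 0`.  Then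
for all `κ ∈ b`, `res M f_ψ κ ≠ 0`, `r(κ, ψ) ≠ 0`, `rip κ ψ ≠ 0`. -/
def NzmStmt : Prop := ∀ (ℓ : ℕ) [Fact ℓ.Prime] (M : Ideal (integralClosure ℤ ℂ)) [M.IsMaximal],
  (ℓ : integralClosure ℤ ℂ) ∈ M → ∀ (H : Type) [Group H] [Finite H] (b : H → FF M), IsBlk b →
  ∃ ψ ∈ IrrE M b, ∀ κ ∈ IrrE M b, rip ℓ κ ψ ≠ 0

/-- KBF: the number of characters of a block is at most the square of the order of a defect group.

Proof.  `ψ` from NZM.  For `κ ∈ b` `|V| rip κ ψ` is an integer (INQ), not `0`, so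
`|rip κ ψ|² ≥ 1/|V|²`.  By Bessel's inequality for the orthonormal characters `κ ∈ b` and the
function `1_reg ψ`: `∑_{κ ∈ b} |rip κ ψ|² ≤ (1_reg ψ, 1_reg ψ) ≤ (ψ, ψ) = 1`. -/
def KbfStmt : Prop := ∀ (ℓ : ℕ) [Fact ℓ.Prime] (M : Ideal (integralClosure ℤ ℂ)) [M.IsMaximal],
  (ℓ : integralClosure ℤ ℂ) ∈ M → ∀ (H : Type) [Group H] [Finite H] (b : H → FF M), IsBlk b →
  ∀ V : Subgroup H, Tp ℓ b V → (IrrE M b).ncard ≤ Nat.card V ^ 2

/-- LNB: the number of modular characters of the local block.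

Proof.  `p : C(u) → B = C(u)/⟨u⟩`, `b' = push p b`, a block (PSG).  `ln b = ln b'`
(`cnt_push`, the central `ℓ`-subgroup `⟨u⟩` acts trivially on the irreducible modular
representations).  A subgroup `Q' ` good for `b'` has the preimage `Q ≥ ⟨u⟩`, good for `b`
(`K9.PugStmt`), of order `|Q'| ℓ ^ a ≤ |V|` (LBX), and `p(V)` is good for `b'`; so `Tp ℓ b' p(V)`,
`|p(V)| = |V|/ℓ ^ a ≤ ℓ ^ p`.  `ln b' ≤ |IrrE b'|` (`K9.LbdStmt`) and KBF. -/
def LnbStmt : Prop := ∀ (ℓ : ℕ) [Fact ℓ.Prime] (M : Ideal (integralClosure ℤ ℂ)) [M.IsMaximal],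
  (ℓ : integralClosure ℤ ℂ) ∈ M → ∀ (G : Type) [Group G] [Finite G] (e : G → FF M)
  (V : Subgroup G) (u : G) (b : G → FF M), Lb ℓ e V u b → ∀ a p : ℕ, orderOf u = ℓ ^ a →
  Nat.card V ≤ ℓ ^ (a + p) → ln (fun t : Cu u => b t) ≤ ℓ ^ (2 * p)

/-- GL5: the sum over the conjugates.

Proof.  `C = C(u)`, `χ|C = ∑_κ m_κ κ` (integers).  `u` is central in `C`: `κ(u ^ j s) =
ζ ^ (i j) κ(s)`, `i = i(κ)`, `ζ` of order `ℓ ^ a`.  So for regular `s`: `gv M C (u ^ j s) b χ =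
∑_{κ ∈ b} m_κ κ(u ^ j s) = ∑_i ζ ^ (i j) ψ_i(s)` (IDM, as in KER), `ψ_i = ∑_{κ ∈ b, i(κ) = i} m_κ κ`.
Let `B(f, g) = |V| rip f g` on the integral combinations of the `κ ∈ b`; it has integral values (INQ
for `C`, `b`, with LBX), `B(f, f) ≥ 0`, and `B(f, f) = 0` only if `f = 0` on the regular elements.
`|V| nm(u ^ j) = ∑_{i,i'} ζ ^ ((i - i') j) B(ψ_i, ψ_i')`.  The sum over all `j < ℓ ^ a` is
`ℓ ^ a ∑_i B(ψ_i, ψ_i)`, the sum over the multiples of `ℓ` is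
`ℓ ^ (a-1) ∑_r B(Ψ_r, Ψ_r)`, `Ψ_r` the sum of the `ψ_i`, `i = r` mod `ℓ ^ (a-1)` (`ℓ` of them).  So
the sum over the `j` prime to `ℓ` is `ℓ ^ (a-1) ∑_r D_r`,
`D_r = ∑_{i < i' in the class r} B(ψ_i - ψ_i', ψ_i - ψ_i')`.  If in every class all `ψ_i` are equal on
the regular elements, then `gv M C (u s) b χ = ∑_i ζ ^ i ψ_i(s) = 0`
(`∑_{i = r} ζ ^ i = 0`), against NZ5 (`s = 1`).  A class in which they are not all equal has at least
`ℓ - 1` unequal pairs, so `D_r ≥ ℓ - 1`. -/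
def Gl5Stmt : Prop := ∀ (ℓ : ℕ) [Fact ℓ.Prime] (M : Ideal (integralClosure ℤ ℂ)) [M.IsMaximal],
  (ℓ : integralClosure ℤ ℂ) ∈ M → ∀ (G : Type) [Group G] [Finite G] (e : G → FF M)
  (V : Subgroup G) (u : G) (b : G → FF M), Lb ℓ e V u b → ∀ a : ℕ, 0 < a → orderOf u = ℓ ^ a →
  ∀ χ ∈ IrrE M e, (((ℓ ^ (a - 1) * (ℓ - 1) : ℕ) : ℝ)) ≤
    Nat.card V * ∑ j ∈ (Finset.range (ℓ ^ a)).filter (fun j => ¬ ℓ ∣ j),
      nm M ℓ (Cu u) (u ^ j) b χ

/-- LB5: the bound for the number of modular characters.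

Proof.  `N` from PR5, `b` from LBX, `R = Rf M N e`.  Add GL5 over `χ ∈ R` and BS5 over the
`ℓ ^ (a-1) (ℓ - 1)` numbers `j < ℓ ^ a` prime to `ℓ`:
`ℓ ^ (a - ep ℓ) |R| ℓ ^ (a-1) (ℓ - 1) ≤ |V| ℓ ^ (a-1) (ℓ - 1) ln b`, so
`ℓ ^ (a - ep ℓ) |R| ≤ |V| ln b ≤ ℓ ^ (a + p) ℓ ^ (2 p)` (LNB), `|R| ≤ ℓ ^ (3 p + ep ℓ)`; FX5. -/
def Lb5Stmt : Prop := ∀ (ℓ : ℕ) [Fact ℓ.Prime] (M : Ideal (integralClosure ℤ ℂ)) [M.IsMaximal],
  (ℓ : integralClosure ℤ ℂ) ∈ M → ∀ (G : Type) [Group G] [Finite G] (e : G → FF M)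
  (V : Subgroup G) (u : G), IsBlk e → Tp ℓ e V → u ∈ V → (∀ v ∈ V, v * u = u * v) →
  ∀ a p : ℕ, 0 < a → ep ℓ ≤ a → orderOf u = ℓ ^ a → Nat.card V ≤ ℓ ^ (a + p) →
    ln e ≤ ℓ ^ (3 * p + ep ℓ)

end Pool.Agent.PP.T5
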