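import Pool.Agent.AT5.Stmts1

/-!
# Squad AT5, part 2: the recursion with telescoping, the theorem

`e` a block of `G` with defect group `V`, `u` a central element of `V` of order `ℓ ^ a`,
`|V| < ℓ ^ (2 a)`, `U = Om ℓ a u` of order `ℓ`, `X = N(U)`, `K` the class sum of `u y` in `G`,
`K^X` the class sum of `u y` in `X`, `f` the block of `X` under `br_U(e)` in which `K^X` is
invertible.  Complete proofs in the docstrings; all rows are independent.
-/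

open scoped BigOperators

noncomputable section

namespace Pool.Agent.PP.T5

open Pool.Agent.Helper51_AWC Pool.Agent.Helper79_WRA Pool.Agent.PP Pool.Agent.PP.KF
open Pool.Agent.PP.K9 Pool.Agent.PP.K9.H97 Pool.Agent.PP.H75 Pool.Agent.PP.T3 Pool.Agent.PP.T2

attribute [local instance] Ideal.Quotient.field

/-! ## 4. Groups -/

/-- OMF: the subgroup of order `ℓ` of `⟨u⟩`.

Proof.  `u ^ ℓ ^ (a-1)` has order `ℓ`.  Last claim: the kernel of `φ` on `⟨u⟩` is a subgroup of a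
cyclic `ℓ`-group; if it is not trivial it contains `Om ℓ a u`; so it is trivial. -/
def OmfStmt : Prop := ∀ (ℓ : ℕ) [Fact ℓ.Prime] (G : Type) [Group G] [Finite G] (a : ℕ) (u : G),
  0 < a → orderOf u = ℓ ^ a →
  IsPGroup ℓ (Om ℓ a u) ∧ Nat.card (Om ℓ a u) = ℓ ∧ Om ℓ a u ≠ ⊥ ∧ Om ℓ a u ≤ Subgroup.zpowers u ∧
  Cu u ≤ Subgroup.centralizer (Om ℓ a u : Set G) ∧
  (∀ g : G, conjS g (Om ℓ a u) = Om ℓ a (g * u * g⁻¹) ∧ orderOf (g * u * g⁻¹) = ℓ ^ a) ∧
  (∀ v ∈ Subgroup.zpowers u, v ≠ 1 → Om ℓ a u ≤ Subgroup.zpowers v) ∧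
  ∀ (H : Type) [Group H] (N : Subgroup G) (φ : N →* H) (hu : u ∈ N),
    ¬ Om ℓ a u ≤ φ.ker.map N.subtype → orderOf (φ ⟨u, hu⟩) = ℓ ^ a

/-- CHR: two central cyclic subgroups of order `ℓ ^ a` of a group of order less than `ℓ ^ (2 a)`.

Proof.  `⟨u⟩⟨v⟩ ≤ W` (commuting) has `ℓ ^ (2 a) / |⟨u⟩ ∩ ⟨v⟩|` elements, so the intersection is not
trivial and contains `Om ℓ a u` and `Om ℓ a v` (OMF), which have order `ℓ` and are both the unique
subgroup of order `ℓ` of the cyclic intersection.  Second claim: for `n ∈ N(W)` apply the first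
one to `v = n u n⁻¹`. -/
def ChrStmt : Prop := ∀ (ℓ : ℕ) [Fact ℓ.Prime] (G : Type) [Group G] [Finite G] (a : ℕ)
  (W : Subgroup G) (u : G), 0 < a → u ∈ W → (∀ w ∈ W, w * u = u * w) → orderOf u = ℓ ^ a →
  Nat.card W < ℓ ^ (2 * a) →
  (∀ v ∈ W, (∀ w ∈ W, w * v = v * w) → orderOf v = ℓ ^ a → Om ℓ a u = Om ℓ a v) ∧
  Subgroup.normalizer (W : Set G) ≤ Subgroup.normalizer (Om ℓ a u : Set G)

/-- CYQ: sections.

Proof.  `|V'|` divides `|P| ≤ |V|`.  `B' =` the image of `P ∩ conjS g B`, `B ≤ V` abelian of index at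
most `ℓ ^ k`: abelian, and `|V' : B'| ≤ |P : P ∩ conjS g B| ≤ |conjS g V : conjS g B|`. -/
def CyqStmt : Prop := ∀ (ℓ : ℕ) [Fact ℓ.Prime] (G A : Type) [Group G] [Finite G] [Group A]
  [Finite A] (a p k : ℕ) (V P N : Subgroup G) (g : G) (φ : N →* A) (V' : Subgroup A),
  Cy ℓ a p k V → P ≤ conjS g V → P ≤ N → V' = (P.subgroupOf N).map φ →
  (∃ v ∈ V', (∀ w ∈ V', w * v = v * w) ∧ orderOf v = ℓ ^ a) → Cy ℓ a p k V'

/-! ## 5. One class sum -/

/-- KIN: the class sum of `u y` is invertible in the block.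

Proof.  `y` from `FmgStmt` (`Reg ℓ y` because `e y ≠ 0`).  `N = N(V)`.  For an element `x` of `C(V)`
with `V` a Sylow subgroup of `C(x)`, `br_V(clsum ⊤ x) = clsum N x`: if `z x z⁻¹ ∈ C(V)`, then `V` and
`z⁻¹ V z` are Sylow subgroups of `C(x)`, so `z c ∈ N(V)` for some `c ∈ C(x)`.  This applies to `y`
and to `u y` (`C(u y) = C(u) ∩ C(y) ≥ V`, as `u` and `y` are powers of `u y`).  If the class sum of
`u y` is not invertible in `e` it is nilpotent (`H50.blk_dich`), so `clsum N (u y) br_V(e)` is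
nilpotent (`H75.br_mulF`).  Let `ρ` be an irreducible representation of `N` in `br_V(e)` (not
zero).  `V` acts trivially (`NlsStmt`), so `ρ(n u y n⁻¹) = ρ(n y n⁻¹)` and `ρ(clsum N (u y)) =
|C_N(y) : C_N(u y)| ρ(clsum N y)`; the index divides `|C(y) : V|` up to factors prime to `ℓ`
(`V ≤ C_N(u y) ≤ C_N(y) ≤ C(y)`), so it is prime to `ℓ`; and `ρ(clsum N y)` is invertible
(`br_V(c) clsum N y br_V(e) = br_V(e)`).  A contradiction. -/
def KinStmt : Prop := ∀ (ℓ : ℕ) [Fact ℓ.Prime] (M : Ideal (integralClosure ℤ ℂ)) [M.IsMaximal],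
  (ℓ : integralClosure ℤ ℂ) ∈ M → ∀ (G : Type) [Group G] [Finite G] (e : G → FF M)
  (V : Subgroup G) (u : G) (a : ℕ), 0 < a → IsBlk e → Tp ℓ e V → u ∈ V →
  (∀ v ∈ V, v * u = u * v) → orderOf u = ℓ ^ a → Nat.card V < ℓ ^ (2 * a) →
  ∃ y, Uy ℓ a e V u y

/-- ZPT: an invertible class function is not zero at an element of `C(δ)` with `ℓ`-part in `Z(δ)`.

Proof.  `c z β = β` gives `br_δ(c) br_δ(z) br_δ(β) = br_δ(β) ≠ 0`.  Let `γ` be a block of `C(δ)` with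
`br_δ(β) γ = γ`; so `br_δ(c) br_δ(z) γ = γ` in `F C(δ)`.  `Z = Z(δ)`, `p : C(δ) → C' = C(δ)/Z`,
`γ' = push p γ`, a block (PSG), `push p(br_δ c) push p(br_δ z) γ' = γ'`.  `γ'` has no good subgroup
`≠ 1`: a good `Q'` has the preimage `Q ≥ Z`, an `ℓ`-subgroup of `C(δ)` good for `γ`
(`K9.PugStmt`), so `Q δ` is good for `β` (`γ ≠ 0` on `C(Q) ∩ C(δ) = C(Q δ)` and
`br_{Q δ}(β) br_{Q δ}(γ) = br_{Q δ}(γ)`), so `|Q δ| ≤ |δ|`, `Q ≤ δ`, `Q = Z`.  By `K9.DzoStmt`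
`IrrE M γ' = {κ}` and `κ` vanishes at the singular elements.  `res M (push p(br_δ z)) κ ≠ 0`
(`res` is multiplicative on class functions of `C'`; `push p (br_δ z)` is one), and it is the
sum over the classes of `C'` of `push p (br_δ z)(x)` times the residue of `|K_x| κ(x)/κ(1)`: so there
is a regular `x ∈ C'` with `push p (br_δ z)(x) ≠ 0`, and a preimage `c ∈ C(δ)` of `x` with
`z c ≠ 0`.  If `m` is the order of `x`, prime to `ℓ`, then `c ^ m ∈ Z(δ)`; the `ℓ`-part `u'` of `c` is a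
power of `c ^ m`. -/
def ZptStmt : Prop := ∀ (ℓ : ℕ) [Fact ℓ.Prime] (M : Ideal (integralClosure ℤ ℂ)) [M.IsMaximal],
  (ℓ : integralClosure ℤ ℂ) ∈ M → ∀ (A : Type) [Group A] [Finite A] (β : A → FF M), IsBlk β →
  ∀ δ : Subgroup A, Tp ℓ β δ → ∀ z : A → FF M, IsCl z → Inv z β →
  ∃ c ∈ Subgroup.centralizer (δ : Set A), z c ≠ 0 ∧ ∀ u' : A, Lp ℓ c u' → u' ∈ δ

/-- KSP: the class of `u y` is the union of the conjugates of its `X`-class.

Proof.  `C(u y) ≤ C(u) ≤ C(U) ≤ X` (`u` is the `ℓ`-part, a power, of `u y`), so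
`q x (u y) (q x)⁻¹ = q' x' (u y) (q' x')⁻¹` implies `q X = q' X`: the sum has at most one nonzero
term at each `t`, equal to `1`.  Second part: `cj g (clsum X (u y)) c ≠ 0` means
`c = g x u y (g x)⁻¹` with `x ∈ X`; `u' = g x u (g x)⁻¹`, and
`Om ℓ a u' = conjS g (conjS x U) = conjS g U` (OMF). -/
def KspStmt : Prop := ∀ (ℓ : ℕ) [Fact ℓ.Prime] (F : Type) [Field F] (G : Type) [Group G]
  [Finite G] (a : ℕ) (u y : G), 0 < a → orderOf u = ℓ ^ a → u * y = y * u → Reg ℓ y →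
  (∀ t : G, ∑ᶠ q : G ⧸ Subgroup.normalizer (Om ℓ a u : Set G),
    cj q.out (clsum F (Subgroup.normalizer (Om ℓ a u : Set G)) (u * y)) t =
      clsum F (⊤ : Subgroup G) (u * y) t) ∧
  ∀ g c : G, cj g (clsum F (Subgroup.normalizer (Om ℓ a u : Set G)) (u * y)) c ≠ 0 →
    ∃ u' : G, Lp ℓ c u' ∧ orderOf u' = ℓ ^ a ∧ Om ℓ a u' = conjS g (Om ℓ a u) ∧
      (∃ n : ℕ, u' = c ^ n) ∧ ∃ h : G, u' = h * u * h⁻¹

/-- FS5: the block `f` of `X = N(U)`.

Proof.  `N(V) ≤ X` (CHR).  `br_U(e)` is a central idempotent of `F X` (`BrmStmt`), the sum of the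
blocks `f_i` of `X` under it.  `br_V(e) = br_V(br_U(e)) = ∑ br_V(f_i)`, orthogonal idempotents of the
centre of `F N(V)`, and `br_V(e)` is a block of `N(V)` (`FmgStmt`): so exactly one `f = f_i` has
`br_V(f) = br_V(e)`.  `supp`: a central idempotent of `F X` vanishes outside of `C(U)`
(`T2.H32.supp_cent`).  `tp`: `V` is good for `f`; a subgroup good for `f` is good for `e`.  `inv`:
otherwise `(K^X) ^ n f = 0` (`H50.blk_dich`); `br_V` is multiplicative on `V`-invariant elements,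
and `br_V(K^X) = clsum N(V) (u y) = br_V(K)` (`V` is a Sylow subgroup of `C(u y)`, `N(V) ≤ X`, see
KIN), so `br_V(K) ^ n br_V(e) = 0`, but `br_V(c) br_V(K) br_V(e) = br_V(e) ≠ 0` (`Uy.inv`).
`nil`: let `f'` be a block of `X` under `br_U(e)` in which `K^X` is not nilpotent, so it is
invertible in `f'` (`H50.blk_dich` for the group `X`).  Let `δ ≤ X` be a defect group of `f'` (a good
`ℓ`-subgroup of maximal order).  ZPT (group `X`, `z = K^X`): `c ∈ C(δ)`, `K^X(c) ≠ 0`, so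
`c = x u y x⁻¹`, `x ∈ X`, and its `ℓ`-part `u' = x u x⁻¹` is in `δ` and commutes with `δ`, `Om ℓ a u' =
conjS x U = U`.  `δ` is good for `e` (`br_U(e) f' = f'`, `U ≤ δ`), so `|δ| ≤ |V| < ℓ ^ (2 a)`.  CHR:
`N_G(δ) ≤ N(U) = X`.  `|δ| = |V|`: otherwise, by FMG for `f'` in `X`, `br_δ(f')` is a block of
`N_X(δ) = N(δ)` with defect group `δ`, it is under `br_δ(e)`, and `K9.DunStmt` (for `e`, `Q = δ`)
gives a good `P > δ` for it, which contradicts the maximality.  So (`FmgStmt` for `e`)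
`δ = conjS k V`.  `k u k⁻¹` and `u'` are central elements of order `ℓ ^ a` of `δ`, so (CHR)
`conjS k U = Om ℓ a (k u k⁻¹) = Om ℓ a u' = U`, `k ∈ X`.  So `V = conjS k⁻¹ δ` is a defect group of
`f'` (in `X`, `f'` is invariant under `X`).  `br_V(f') ≠ 0` and `br_V(e) br_V(f') = br_V(f')`, so
`br_V(f') = br_V(e) = br_V(f)` (`br_V(e)` is a block of `N(V)`).  `br_V(f f') = br_V(e) ≠ 0`, so
`f f' ≠ 0`, `f' = f` (`Bx.dich`). -/
def Fs5Stmt : Prop := ∀ (ℓ : ℕ) [Fact ℓ.Prime] (M : Ideal (integralClosure ℤ ℂ)) [M.IsMaximal],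
  (ℓ : integralClosure ℤ ℂ) ∈ M → ∀ (G : Type) [Group G] [Finite G] (a : ℕ) (e : G → FF M)
  (V : Subgroup G) (u y : G), Uy ℓ a e V u y → ∃ f, Uf ℓ a e V u y f

/-- UO5: the idempotents over different conjugates of `U` are orthogonal.

Proof.  `E₁ = br_Q(cj g f)`, `E₂ = br_Q(cj h f)` are central idempotents of `F C(Q)`
(`C(Q) ≤ C(conjS g U) ≤ N(conjS g U)`, `Q` acts trivially on `cj g f`).  Suppose `E₁ E₂ ≠ 0`, and let
`b` be a block of `C(Q)` with `E₁ b = b = E₂ b`.  `b` is under `br_Q(e)` (`br_Q(e) E₁ = E₁`: conjugate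
`Uf.und`, apply `br_Q`; `br_Q(br_{U'}(e)) = br_Q(e)` for `U' = conjS g U ≤ Q`).  Let `P` be a
defect group of `b` (in `C(Q)`); it is good for `e`, so `|P| ≤ |V| < ℓ ^ (2 a)`.  `Uf.inv`:
`c K^X f = f`; conjugate with `g`, apply `br_Q` (all factors are `Q`-invariant, `Q ≤ N(conjS g U)`):
`br_Q(cj g c) br_Q(cj g K^X) E₁ = E₁`; multiply by `b`: `br_Q(cj g K^X)` is invertible in `b`
(class functions of `C(Q)`).  ZPT for the group `C(Q)`, the block `b`: an element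
`c₁ ∈ C(Q) ∩ C(P)` with `cj g K^X(c₁) ≠ 0` whose `ℓ`-part `u₁` is in `P` (and commutes with `P`), and
KSP: `u₁` has order `ℓ ^ a`, `Om ℓ a u₁ = conjS g U`.  In the same way `u₂ ∈ P`, `Om ℓ a u₂ =
conjS h U`.  CHR: `Om ℓ a u₁ = Om ℓ a u₂`, a contradiction. -/
def Uo5Stmt : Prop := ∀ (ℓ : ℕ) [Fact ℓ.Prime] (M : Ideal (integralClosure ℤ ℂ)) [M.IsMaximal],
  (ℓ : integralClosure ℤ ℂ) ∈ M → ∀ (G : Type) [Group G] [Finite G] (a : ℕ) (e : G → FF M)
  (V : Subgroup G) (u y : G), Uy ℓ a e V u y → ∀ f, Uf ℓ a e V u y f → Uo ℓ e (Om ℓ a u) f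

/-! ## 6. The blocks of `N(Q)/Q` -/

/-- QTP: good subgroups of the blocks of `N(Q)/Q`.

Proof.  `P` = the preimage of `V'` in `N(Q)`, an `ℓ`-group with `Q ≤ P`.  `V'` is good for
`push p (br_Q e)` (`gd_of_mul`: `push p (br_Q e) f₁ = f₁`), so by `K9.PugStmt` `P` is good for
`br_Q(e)`, so for `e`; `FmgStmt`, first part.  (Compare `card_good` in `Helper35_K9/CHQ.lean`.) -/
def QtpStmt : Prop := ∀ (ℓ : ℕ) [Fact ℓ.Prime] (M : Ideal (integralClosure ℤ ℂ)) [M.IsMaximal],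
  (ℓ : integralClosure ℤ ℂ) ∈ M → ∀ (G : Type) [Group G] [Finite G] (e : G → FF M)
  (V : Subgroup G), IsBlk e → Tp ℓ e V → ∀ Q : Subgroup G, IsPGroup ℓ Q → ∀ (A : Type)
  [Group A] [Finite A] (p : Subgroup.normalizer (Q : Set G) →* A), Function.Surjective p →
  p.ker = Q.subgroupOf (Subgroup.normalizer (Q : Set G)) → ∀ f₁ : A → FF M, IsBlk f₁ →
  mulF (push p (fun t : Subgroup.normalizer (Q : Set G) => br Q e t)) f₁ = f₁ →
  ∀ V' : Subgroup A, IsPGroup ℓ V' → Gd f₁ V' → ∃ (P : Subgroup G) (g : G), Q ≤ P ∧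
    P ≤ Subgroup.normalizer (Q : Set G) ∧ P ≤ conjS g V ∧
    V' = (P.subgroupOf (Subgroup.normalizer (Q : Set G))).map p

/-- TY5: the blocks of `N(Q)/Q` which are not over a conjugate of `(U, f)`.

Proof.  Let `V'` be a defect group of `f₁` (a good `ℓ`-subgroup of maximal order).  `c K e = e`
(`Uy.inv`) gives `push p (br_Q c) push p (br_Q K) f₁ = f₁`.  `K = ∑_q cj q K^X` (KSP).
`br_Q(cj q K^X) = 0` unless `Q ≤ C(conjS q U)`: if `c ∈ C(Q)` and `cj q K^X(c) ≠ 0` then the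
`ℓ`-part `u'` of `c` (KSP) commutes with `Q`, and `conjS q U = Om ℓ a u'`.  Let `K₁` be the sum of
the `cj q K^X` with `conjS q U ≤ Q`, `K₂` the sum of the others, both invariant under `N(Q)`.
(1) `push p (br_Q K₁) f₁` is nilpotent: only the `q` with `Bt U Q q` matter.  For such a `q`,
`U' = conjS q U`, `X' = N(U')`: `Q ≤ C(U') ≤ X'`, `br_{U'}(e) - cj q f` is the sum of the blocks
`f'' ≠ cj q f` of `X'` under `br_{U'}(e)`, in each of which `cj q K^X` is nilpotent (`Uf.nil`,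
conjugated by `q`).  So `cj q K^X (br_{U'}(e) - cj q f)` is nilpotent, and, applying `br_Q`
(multiplicative on `Q`-invariant elements; `br_Q(br_{U'}(e)) = br_Q(e)`) and `push p`, also
`w_q (push p (br_Q e) - push p (br_Q (cj q f)))`, `w_q = push p (br_Q(cj q K^X))`; multiplied by
`f₁` this is `w_q f₁`.  The `w_q` commute with each other (they are images of central elements of
`F C(Q)`: `C(Q) ≤ C(U') ≤ X'`) and with `f₁`, so `∑_q w_q f₁` is nilpotent.  (2) So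
`push p (br_Q K₂)` is not nilpotent in `f₁` (the sum of two commuting nilpotent elements is
nilpotent), it is invertible (`H50.blk_dich`).  ZPT (group `A`, block `f₁`): `x ∈ C_A(V')` with
`push p (br_Q K₂)(x) ≠ 0`, the `ℓ`-part of `x` in `V'`.  So there is `c ∈ C(Q)`, `p c = x`,
`cj q K^X(c) ≠ 0` for some `q` with `¬ conjS q U ≤ Q`.  `u'` = the `ℓ`-part of `c` (KSP), a power of
`c`; `v = p u'` is the `ℓ`-part of `x`, in `V'`, it commutes with `V'`.  `Om ℓ a u' = conjS q U` is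
not contained in `Q = ker p`, so `v` has order `ℓ ^ a` (OMF).  QTP and CYQ: `Cy ℓ a p k V'`. -/
def Ty5Stmt : Prop := ∀ (ℓ : ℕ) [Fact ℓ.Prime] (M : Ideal (integralClosure ℤ ℂ)) [M.IsMaximal],
  (ℓ : integralClosure ℤ ℂ) ∈ M → ∀ (G : Type) [Group G] [Finite G] (a p k : ℕ) (e : G → FF M)
  (V : Subgroup G) (u y : G), Uy ℓ a e V u y → Cy ℓ a p k V → ∀ f, Uf ℓ a e V u y f →
  ∀ Q : Subgroup G, IsPGroup ℓ Q → ∀ (A : Type) [Group A] [Finite A]
  (π : Subgroup.normalizer (Q : Set G) →* A), Function.Surjective π →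
  π.ker = Q.subgroupOf (Subgroup.normalizer (Q : Set G)) → ∀ f₁ : A → FF M, IsBlk f₁ →
  mulF (push π (fun t : Subgroup.normalizer (Q : Set G) => br Q e t)) f₁ = f₁ →
  (∀ g : G, Bt (Om ℓ a u) Q g →
    mulF (push π (fun t : Subgroup.normalizer (Q : Set G) => br Q (cj g f) t)) f₁ = 0) →
  ∃ V' : Subgroup A, Tp ℓ f₁ V' ∧ Cy ℓ a p k V'

/-- TA5: only the part over the conjugates of `(U, f)` contributes.

Proof (compare `T2.TeaStmt`, `Helper..._AT2/TEA.lean`).  The `E_q = br_Q(cj q f)`, `Bt U Q q`, `q` coset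
representatives of `N(U)`, are orthogonal idempotents (`Uo.ort`; different cosets give different
conjugates of `U`) under `br_Q(e)`, and their sum `brU U Q f` is invariant under `N(Q)` (which permutes
the conjugates of `(U, f)`; `cj g f` depends only on the coset of `g`).  So `brU U Q f` and
`E₀ = br_Q(e) - brU U Q f` are orthogonal central idempotents of `F N(Q)`; the same for their images
under `push`.  `AddStmt`: `YQ ℓ e Q = YY ⊤ (push E₀) + YY ⊤ (push (brU U Q f))`, and the first term is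
the sum of the `YY ⊤ f₁` over the blocks `f₁` of `N(Q)/Q` under `push E₀`, for which the hypothesis
gives `0` (`br_Q(cj g f) E₀ = 0` for `Bt U Q g`). -/
def Ta5Stmt : Prop := ∀ (ℓ : ℕ) [Fact ℓ.Prime] (F : Type) [Field F], GoodF ℓ F → ∀ (G : Type)
  [Group G] [Finite G] (e : G → F), IsIdem e → ∀ (U : Subgroup G) (f : G → F), IsPGroup ℓ U →
  Uo ℓ e U f → ∀ Q : Subgroup G, IsPGroup ℓ Q →
  (∀ f₁ : (Subgroup.normalizer (Q : Set G) ⧸ Q.subgroupOf (Subgroup.normalizer (Q : Set G))) → F,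
    IsBlk f₁ → mulF (push (QuotientGroup.mk' (Q.subgroupOf (Subgroup.normalizer (Q : Set G))))
      (fun t : Subgroup.normalizer (Q : Set G) => br Q e t)) f₁ = f₁ →
    (∀ g : G, Bt U Q g →
      mulF (push (QuotientGroup.mk' (Q.subgroupOf (Subgroup.normalizer (Q : Set G))))
        (fun t : Subgroup.normalizer (Q : Set G) => br Q (cj g f) t)) f₁ = 0) →
    YY ℓ ⊤ f₁ = 0) →
  YQ ℓ e Q = YY ℓ ⊤ (push (QuotientGroup.mk' (Q.subgroupOf (Subgroup.normalizer (Q : Set G))))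
    (fun t : Subgroup.normalizer (Q : Set G) => brU U Q f t))

/-- TB5: the part over the conjugates of `(U, f)` is the same in `G` and in `N(U)`.

Proof: see `T2.TebStmt`, word for word, with `Uo.ort` instead of ORT (`T2.FrsStmt` may be used). -/
def Tb5Stmt : Prop := ∀ (ℓ : ℕ) [Fact ℓ.Prime] (F : Type) [Field F], GoodF ℓ F → ∀ (G : Type)
  [Group G] [Finite G] (e : G → F), IsIdem e → ∀ (U : Subgroup G) (f : G → F), IsPGroup ℓ U →
  Uo ℓ e U f → ∀ Q : Subgroup G, IsPGroup ℓ Q →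
  YY ℓ ⊤ (push (QuotientGroup.mk' (Q.subgroupOf (Subgroup.normalizer (Q : Set G))))
    (fun t : Subgroup.normalizer (Q : Set G) => brU U Q f t)) =
    ∑ᶠ (q : G ⧸ Subgroup.normalizer (U : Set G)) (_ : Bt U Q q.out),
      YQ ℓ (fun t : Subgroup.normalizer (U : Set G) => f t)
        ((conjS q.out⁻¹ Q).subgroupOf (Subgroup.normalizer (U : Set G)))

/-- TX5: the subgroups of `X = N(U)` which are not between `U` and `C(U)`.

Proof.  `AddStmt`: `YQ` is the sum of the `YY ⊤ f₁` over the blocks `f₁` of `A = N_X(Q)/Q` under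
`push (br_Q f_X)` (all in the group `X`).  Let `V'` be a defect group of `f₁`.  `Uf.inv` gives as in
TY5 that the image of `br_Q(K^X)` is invertible in `f₁`, so by ZPT there is `c ∈ X`, `c ∈ C(Q)`,
`c = x u y x⁻¹` with `x ∈ X`, such that the image of its `ℓ`-part `u' = x u x⁻¹` is in `V'` and
commutes with `V'`.  `Om ℓ a u' = conjS x U = U`.  If `U_X ≤ Q`, then also `Q ≤ C(U)` (`u'` is a power
of `c ∈ C(Q)`, `U ≤ ⟨u'⟩`), which is excluded.  So the image of `u'` has order `ℓ ^ a` (OMF), and QTP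
(for `X`, `f_X`, `V_X`) and CYQ (`Cy` for `V_X ≅ V`, or CYQ for the inclusion of `P` in `G`) give
`Cy ℓ a p k V'`.  `|A| < |X| ≤ |G|` (`Q ≠ ⊥`), so `YY ⊤ f₁ = 0` by `Ih5`. -/
def Tx5Stmt : Prop := ∀ (ℓ : ℕ) [Fact ℓ.Prime] (M : Ideal (integralClosure ℤ ℂ)) [M.IsMaximal],
  (ℓ : integralClosure ℤ ℂ) ∈ M → ∀ (G : Type) [Group G] [Finite G] (a p k : ℕ) (e : G → FF M)
  (V : Subgroup G) (u y : G), Uy ℓ a e V u y → Cy ℓ a p k V → ∀ f, Uf ℓ a e V u y f →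
  Ih5 M ℓ a p k (Nat.card G) → ∀ (U : Subgroup G), U = Om ℓ a u →
  ∀ Q : Subgroup (Subgroup.normalizer (U : Set G)), IsPGroup ℓ Q → Q ≠ ⊥ →
  ¬ (U.subgroupOf (Subgroup.normalizer (U : Set G)) ≤ Q ∧
    Q ≤ (Subgroup.centralizer (U : Set G)).subgroupOf (Subgroup.normalizer (U : Set G))) →
  YQ ℓ (fun t : Subgroup.normalizer (U : Set G) => f t) Q = 0

/-- TS5: the telescoping sum.

Proof.  As `T2.TesStmt`: `YY ⊤ f_X = 0` (`YzrStmt`, `U_X ≠ ⊥` is a normal `ℓ`-subgroup of `X`),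
RecStmt for `X` and (by the last hypothesis) only the `Q` between `U_X` and `C(U)` contribute;
RecStmt for `G` with the first hypothesis and TB5; for given `q` the map
`Q ↦ (conjS q⁻¹ Q).subgroupOf X` is a bijection of the `ℓ`-subgroups `Q` with `Bt U Q q` onto the
`ℓ`-subgroups of `X` between `U_X` and `C(U)`. -/
def Ts5Stmt : Prop := ∀ (ℓ : ℕ) [Fact ℓ.Prime] (F : Type) [Field F], GoodF ℓ F → ∀ (G : Type)
  [Group G] [Finite G] (e : G → F), IsIdem e → ∀ (U : Subgroup G) (f : G → F), IsPGroup ℓ U →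
  U ≠ ⊥ → Uo ℓ e U f →
  (∀ Q : Subgroup G, IsPGroup ℓ Q → Q ≠ ⊥ → YQ ℓ e Q =
    YY ℓ ⊤ (push (QuotientGroup.mk' (Q.subgroupOf (Subgroup.normalizer (Q : Set G))))
      (fun t : Subgroup.normalizer (Q : Set G) => brU U Q f t))) →
  (∀ Q : Subgroup (Subgroup.normalizer (U : Set G)), IsPGroup ℓ Q → Q ≠ ⊥ →
    ¬ (U.subgroupOf (Subgroup.normalizer (U : Set G)) ≤ Q ∧
      Q ≤ (Subgroup.centralizer (U : Set G)).subgroupOf (Subgroup.normalizer (U : Set G))) →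
    YQ ℓ (fun t : Subgroup.normalizer (U : Set G) => f t) Q = 0) →
  YY ℓ ⊤ e = (Nat.card G : ℤ) *
    ((ln e : ℤ) - (ln (fun t : Subgroup.normalizer (U : Set G) => f t) : ℤ))

/-! ## 7. The theorem -/

/-- DV5: divisibility.

Proof.  `ML.IsDef ℓ M χ V` (`isDef_of_tp`, `Helper24_AT3/DVS.lean`).  Let `B ≤ V` be abelian of index
at most `ℓ ^ k`; replace `B` by `B ⟨u⟩` (`u` is central in `V`).  The transfer `ρ : V → B`
(`MonoidHom.transfer` of the identity) maps `u` to `u ^ |V : B|` (`MonoidHom.transfer_eq_pow`, `u`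
central), and `|V : B| = ℓ ^ k'`, `k' ≤ k`; the order of `u ^ ℓ ^ k'` is divisible by `ℓ ^ (a - k)`.
`ML.Mn3Stmt` with `opCore ℓ G = ⊥`. -/
def Dv5Stmt : Prop := ∀ (ℓ : ℕ) [Fact ℓ.Prime] (M : Ideal (integralClosure ℤ ℂ)) [M.IsMaximal],
  (ℓ : integralClosure ℤ ℂ) ∈ M → ∀ (G : Type) [Group G] [Finite G], opCore ℓ G = ⊥ →
  ∀ (a p k : ℕ) (e : G → FF M) (V : Subgroup G), IsBlk e → Tp ℓ e V → Cy ℓ a p k V →
  ∀ χ ∈ Irr G, res M e χ = 1 → ((ℓ ^ (a - k) : ℕ) : ℤ) ∣ altSum ℓ M χ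

/-- T5A: the main theorem for block idempotents.

Proof.  Induction on `|G|`.  If `opCore ℓ G ≠ ⊥`: `YzrStmt`.  Let `opCore ℓ G = ⊥`.  `ep ℓ ≥ 1`, so
`p < a`, `|V| ≤ ℓ ^ (a + p) < ℓ ^ (2 a)`.  `u` from `Cy.cen`, `y` from KIN, `f` from FS5, `Uo` from
UO5, `U = Om ℓ a u`, `X = N(U)`.  The first hypothesis of TS5: TA5 with TY5 (for
`π = QuotientGroup.mk'`) and the induction hypothesis (`|N(Q)/Q| < |G|`).  The second one: TX5.
TS5: `YY ⊤ e = |G| (ln e - ln f_X)`.  `1 ≤ ln e, ln f_X ≤ ℓ ^ (3 p + ep ℓ)` (`K9.LbdStmt`, LB5 for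
`e`, `V`, `u` and for `f_X`, `V_X`, `u`; `V ≤ N(V) ≤ X`, so `|V_X| = |V|`).  `H75.block_case` (with
`T3.PosStmt`) gives `χ` with `res M e χ = 1` and `|G| altSum χ = YY ⊤ e`, so
`|altSum χ| = |ln e - ln f_X| < ℓ ^ (3 p + ep ℓ) ≤ ℓ ^ (a - k)`, and `ℓ ^ (a - k)` divides it
(DV5): `altSum χ = 0`. -/
def T5aStmt : Prop := ∀ (ℓ : ℕ) [Fact ℓ.Prime] (M : Ideal (integralClosure ℤ ℂ)) [M.IsMaximal],
  (ℓ : integralClosure ℤ ℂ) ∈ M → ∀ a p k : ℕ, 3 * p + k + ep ℓ ≤ a → ∀ (G : Type) [Group G]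
  [Finite G] (e : G → FF M) (V : Subgroup G), IsBlk e → Tp ℓ e V → Cy ℓ a p k V → YY ℓ ⊤ e = 0

/-- DZ5: the defect group modulo `O_ℓ(G)`.

Proof.  `tp_of_isDef` in `Helper24_AT2/DZA.lean`: `Tp ℓ e D`.  The rest is the proof of `T2.DzaStmt`
without the last claim (no commutativity is needed): `p(D)` is good for `push p e`, and every good
`ℓ`-subgroup `R'` of `push p e` has the preimage `R ≥ opCore ℓ G`, good for `e` (`K9.PugStmt`), so
`|R'| |opCore| = |R| ≤ |D|`. -/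
def Dz5Stmt : Prop := ∀ (ℓ : ℕ) [Fact ℓ.Prime] (M : Ideal (integralClosure ℤ ℂ)) [M.IsMaximal],
  (ℓ : integralClosure ℤ ℂ) ∈ M → ∀ (G : Type) [Group G] [Finite G],
  opCore ℓ G ≤ Subgroup.center G → ∀ χ ∈ Irr G, ∀ D : Subgroup G, ML.IsDef ℓ M χ D →
  ∀ e : G → FF M, IsBlk e → res M e χ = 1 → ∀ (A : Type) [Group A] [Finite A] (p : G →* A),
  Function.Surjective p → p.ker = opCore ℓ G → IsBlk (push p e) ∧ opCore ℓ G ≤ D ∧
    Nat.card (D.map p) * Nat.card (opCore ℓ G) = Nat.card D ∧ Tp ℓ (push p e) (D.map p)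

/-- FN5: the final theorem.  `D` is a defect group of `χ`, `z ∈ D` is central in `D` modulo
`O_ℓ(G)`, of order `q` modulo `O_ℓ(G)`, `B ≤ D` is abelian modulo `O_ℓ(G)`,
`|D| = m q |O_ℓ(G)|`.

Proof.  `e` the block of `χ` (`H50.bid`), `Z = opCore ℓ G`, `π : G → G/Z`.  `H75.altSum_central`:
`|G| altSum χ = |Z|² YY ℓ ⊤ (push π e)`.  DZ5: `Tp ℓ (push π e) D'`, `D' = π(D)`, `|D'| = m q`.
`π z` is central in `D'` of order `q = ℓ ^ a`, `m = ℓ ^ p` (divisors of `|D'|`), `π(B)` is abelian of index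
at most `|D : B| = ℓ ^ k` in `D'`.  The hypothesis says `ℓ ^ (ep ℓ + 3 p + k) ≤ ℓ ^ a`.  T5A. -/
def Fn5Stmt : Prop := ∀ (ℓ : ℕ) [Fact ℓ.Prime] (M : Ideal (integralClosure ℤ ℂ)) [M.IsMaximal],
  (ℓ : integralClosure ℤ ℂ) ∈ M → ∀ (G : Type) [Group G] [Finite G],
  opCore ℓ G ≤ Subgroup.center G → ∀ χ ∈ Irr G, ∀ D : Subgroup G, ML.IsDef ℓ M χ D →
  ∀ z ∈ D, (∀ d ∈ D, z * d * z⁻¹ * d⁻¹ ∈ opCore ℓ G) →
  ∀ B ≤ D, (∀ x ∈ B, ∀ y ∈ B, x * y * x⁻¹ * y⁻¹ ∈ opCore ℓ G) →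
  ∀ q m : ℕ, (∀ n : ℕ, z ^ n ∈ opCore ℓ G ↔ q ∣ n) → Nat.card D = m * q * Nat.card (opCore ℓ G) →
  ℓ ^ ep ℓ * m ^ 3 * B.relIndex D ≤ q → altSum ℓ M χ = 0

end Pool.Agent.PP.T5
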